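import Mathlib.Data.Int.Star
import Mathlib.Algebra.Order.Ring.Star
import Mathlib.Algebra.Ring.IsFormallyReal
import Mathlib.Analysis.Calculus.SmoothSeries
import Mathlib.Analysis.InnerProductSpace.Calculus
import Mathlib.Analysis.SpecialFunctions.SmoothTransition
import Mathlib.Analysis.Calculus.ContDiff.Convolution
import Mathlib.Analysis.SpecialFunctions.Pow.Integral
import Mathlib.MeasureTheory.Measure.Lebesgue.VolumeOfBalls
import Mathlib.Topology.UniformSpace.Uniformizable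
import Pool.Agent.MP_9758ca_gt.Basic

/-!
PROJECT BALL: dyadic pieces of the Cauchy kernel and the Cauchy transform of Hoelder functions
with compact support.
-/

open scoped Topology ContDiff ComplexConjugate Convolution
open Set Metric Filter Complex MeasureTheory

namespace Pool.Agent.MP_9758ca_gt.CT

noncomputable section

/-- one for `t ≤ 1`, zero for `t ≥ 2` -/
def ph (t : ℝ) : ℝ := 1 - Real.smoothTransition (t - 1)

/-- the Cauchy kernel -/
def ck (u : ℂ) : ℂ := ((Real.pi : ℂ) * u)⁻¹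

/-- the Cauchy kernel cut off at the scale `1 / l` -/
def ak (l : ℝ) (u : ℂ) : ℂ := (ph (l ^ 2 * ‖u‖ ^ 2) : ℂ) * ck u

/-- the dyadic piece -/
def kk (l : ℝ) (u : ℂ) : ℂ := ak l u - ak (2 * l) u

/-- the approximate identity -/
def mm (l : ℝ) (u : ℂ) : ℂ := ((-(l ^ 2 * deriv ph (l ^ 2 * ‖u‖ ^ 2) / Real.pi) : ℝ) : ℂ)

theorem contDiff_ph : ContDiff ℝ ∞ ph :=
  contDiff_const.sub (Real.smoothTransition.contDiff.comp (contDiff_id.sub contDiff_const))

theorem ph_one {t : ℝ} (h : t ≤ 1) : ph t = 1 := by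
  simp [ph, Real.smoothTransition.zero_of_nonpos (by linarith : t - 1 ≤ 0)]

theorem ph_zero {t : ℝ} (h : 2 ≤ t) : ph t = 0 := by
  simp [ph, Real.smoothTransition.one_of_one_le (by linarith : 1 ≤ t - 1)]

theorem abs_ph (t : ℝ) : |ph t| ≤ 1 := by
  have h1 := Real.smoothTransition.nonneg (t - 1)
  have h2 := Real.smoothTransition.le_one (t - 1)
  rw [abs_le]; constructor <;> simp only [ph] <;> linarith

theorem dph_lo {t : ℝ} (h : t < 1) : deriv ph t = 0 := by
  have : ph =ᶠ[𝓝 t] fun _ => 1 := by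
    filter_upwards [Iio_mem_nhds h] with s hs using ph_one (le_of_lt hs)
  rw [this.deriv_eq]; simp

theorem dph_hi {t : ℝ} (h : 2 < t) : deriv ph t = 0 := by
  have : ph =ᶠ[𝓝 t] fun _ => 0 := by
    filter_upwards [Ioi_mem_nhds h] with s hs using ph_zero (le_of_lt hs)
  rw [this.deriv_eq]; simp

theorem continuous_dph : Continuous (deriv ph) := contDiff_ph.continuous_deriv (by simp)

theorem hasDerivAt_ph (t : ℝ) : HasDerivAt ph (deriv ph t) t :=
  (contDiff_ph.differentiable (by simp) t).hasDerivAt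

theorem sq_big {l : ℝ} (hl : 0 < l) {u : ℂ} (h : 2 / l < ‖u‖) : 2 < l ^ 2 * ‖u‖ ^ 2 := by
  rw [div_lt_iff₀ hl] at h
  nlinarith

theorem ak_hi {l : ℝ} (hl : 0 < l) {u : ℂ} (h : 2 / l < ‖u‖) : ak l u = 0 := by
  simp [ak, ph_zero (sq_big hl h).le]

theorem kk_hi {l : ℝ} (hl : 0 < l) {u : ℂ} (h : 2 / l < ‖u‖) : kk l u = 0 := by
  have h2 : 2 / (2 * l) < ‖u‖ :=
    lt_of_le_of_lt (div_le_div_of_nonneg_left (by norm_num) hl (by linarith)) h
  simp [kk, ak_hi hl h, ak_hi (by linarith) h2]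

theorem mm_hi {l : ℝ} (hl : 0 < l) {u : ℂ} (h : 2 / l < ‖u‖) : mm l u = 0 := by
  simp [mm, dph_hi (sq_big hl h)]

theorem kk_lo {l : ℝ} (hl : 0 < l) : kk l =ᶠ[𝓝 0] fun _ => 0 := by
  filter_upwards [ball_mem_nhds (0 : ℂ) (by positivity : 0 < 1 / (2 * l))] with u hu
  rw [mem_ball_zero_iff, lt_div_iff₀ (by positivity)] at hu
  have h0 := norm_nonneg u
  have h3 : 0 ≤ ‖u‖ * l := by positivity
  have h1 : (2 * l) ^ 2 * ‖u‖ ^ 2 ≤ 1 := by nlinarith
  have h2 : l ^ 2 * ‖u‖ ^ 2 ≤ 1 := by nlinarith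
  simp [kk, ak, ph_one h1, ph_one h2]

theorem contDiffAt_ak (l : ℝ) {u : ℂ} (hu : u ≠ 0) : ContDiffAt ℝ ∞ (ak l) u := by
  have h1 : ContDiffAt ℝ ∞ (fun u : ℂ => ph (l ^ 2 * ‖u‖ ^ 2)) u :=
    (contDiff_ph.comp (contDiff_const.mul (contDiff_norm_sq ℝ))).contDiffAt
  have h2 : ContDiffAt ℝ ∞ ck u :=
    (contDiffAt_const.mul contDiffAt_id).inv (mul_ne_zero (by simp [Real.pi_ne_zero]) hu)
  exact (ofRealCLM.contDiff.contDiffAt.comp u h1).mul h2

theorem contDiff_kk {l : ℝ} (hl : 0 < l) : ContDiff ℝ ∞ (kk l) := by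
  rw [contDiff_iff_contDiffAt]
  intro u
  by_cases hu : u = 0
  · subst hu
    exact contDiffAt_const.congr_of_eventuallyEq (kk_lo hl)
  · exact (contDiffAt_ak l hu).sub (contDiffAt_ak _ hu)

theorem hcs_of {E : Type} [Zero E] {f : ℂ → E} {r : ℝ} (h : ∀ u, r < ‖u‖ → f u = 0) :
    HasCompactSupport f :=
  HasCompactSupport.intro (isCompact_closedBall 0 r) fun u hu => h u (by simpa using hu)

theorem hcs_kk {l : ℝ} (hl : 0 < l) : HasCompactSupport (kk l) := hcs_of fun _ => kk_hi hl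

theorem dkk_hi {l : ℝ} (hl : 0 < l) {u : ℂ} (h : 2 / l < ‖u‖) : fderiv ℝ (kk l) u = 0 := by
  have : kk l =ᶠ[𝓝 u] fun _ => 0 := by
    filter_upwards [(isOpen_lt continuous_const continuous_norm).mem_nhds h] with v hv using
      kk_hi hl hv
  rw [this.fderiv_eq]; simp

theorem continuous_mm (l : ℝ) : Continuous (mm l) := by
  have := continuous_dph
  unfold mm
  fun_prop

theorem dbar_ak (l : ℝ) {u : ℂ} (hu : u ≠ 0) : dbar (ak l) u = -mm l u := by
  have h0 : HasFDerivAt (fun u : ℂ => ‖u‖ ^ 2) (2 • innerSL ℝ u) u := by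
    simpa using (hasFDerivAt_id u).norm_sq
  have h1 := (hasDerivAt_ph (l ^ 2 * ‖u‖ ^ 2)).comp_hasFDerivAt u (h0.const_mul (l ^ 2))
  have h2 := ofRealCLM.hasFDerivAt.comp u h1
  have hp : (Real.pi : ℂ) ≠ 0 := by simp [Real.pi_ne_zero]
  have h3 : HasDerivAt ck (-(Real.pi : ℂ) / ((Real.pi : ℂ) * u) ^ 2) u := by
    have := ((hasDerivAt_id u).const_mul (Real.pi : ℂ)).inv (mul_ne_zero hp hu)
    simpa using! this
  have h4 := (h3.hasFDerivAt.restrictScalars ℝ)
  have h5 : HasFDerivAt (ak l) _ u := h2.mul h4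
  unfold dbar
  rw [h5.fderiv]
  simp [mm, ck, Complex.inner]
  have h6 : u = u.re + u.im * I := (re_add_im u).symm
  field_simp
  ring_nf
  simp only [I_sq]
  linear_combination (-(l : ℂ) ^ 2 * (deriv ph (l ^ 2 * ‖u‖ ^ 2) : ℝ) * u * 2) * h6

theorem dbar_kk {l : ℝ} (hl : 0 < l) (u : ℂ) : dbar (kk l) u = mm (2 * l) u - mm l u := by
  by_cases hu : u = 0
  · subst hu
    simp [dbar, (kk_lo hl).fderiv_eq, mm, dph_lo]
  · have h1 := ((contDiffAt_ak l hu).differentiableAt (by simp)).hasFDerivAt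
    have h2 := ((contDiffAt_ak (2 * l) hu).differentiableAt (by simp)).hasFDerivAt
    have h3 : HasFDerivAt (kk l) _ u := h1.sub h2
    have h4 := dbar_ak l hu
    have h5 := dbar_ak (2 * l) hu
    unfold dbar at h4 h5 ⊢
    rw [h3.fderiv]
    simp only [sub_apply, smul_eq_mul] at h4 h5 ⊢
    linear_combination h4 - h5

theorem kk_scale {l : ℝ} (hl : 0 < l) (u : ℂ) : kk l u = (l : ℂ) * kk 1 (l • u) := by
  have h : (l : ℂ) ≠ 0 := by exact_mod_cast hl.ne'
  have h1 : ‖l • u‖ ^ 2 = l ^ 2 * ‖u‖ ^ 2 := by rw [norm_smul, Real.norm_eq_abs, mul_pow, sq_abs]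
  have h2 : ck u = l * ck (l • u) := by
    by_cases hu : u = 0
    · simp [ck, hu]
    · simp only [ck, real_smul]
      have hp : (Real.pi : ℂ) ≠ 0 := by simp [Real.pi_ne_zero]
      field_simp
  simp only [kk, ak, h1, h2]
  rw [show (2 * 1 : ℝ) ^ 2 * (l ^ 2 * ‖u‖ ^ 2) = (2 * l) ^ 2 * ‖u‖ ^ 2 by ring, one_pow, one_mul]
  ring

theorem dkk_scale {l : ℝ} (hl : 0 < l) (u : ℂ) :
    fderiv ℝ (kk l) u = (l ^ 2) • fderiv ℝ (kk 1) (l • u) := by
  have h1 := ((contDiff_kk one_pos).differentiable (by simp) (l • u)).hasFDerivAt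
  have h2 := (h1.comp u ((hasFDerivAt_id u).const_smul l)).const_smul l
  have h3 : kk l = fun u => l • kk 1 (l • u) := by
    funext v; rw [kk_scale hl]; simp
  have h4 : fderiv ℝ (fun u => l • kk 1 (l • u)) u = _ := h2.fderiv
  rw [h3, h4]
  ext a
  simp [← mul_assoc, sq]

theorem mm_scale {l : ℝ} (u : ℂ) : mm l u = (l ^ 2) • mm 1 (l • u) := by
  have h1 : ‖l • u‖ ^ 2 = l ^ 2 * ‖u‖ ^ 2 := by rw [norm_smul, Real.norm_eq_abs, mul_pow, sq_abs]
  simp only [mm, h1, one_pow, one_mul]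
  rw [real_smul]
  push_cast
  ring

theorem integral_mm {l : ℝ} (hl : 0 < l) : ∫ u, mm l u = 1 := by
  have h1 : ∫ u, mm 1 u = 1 := by
    have h := integral_fun_norm_addHaar (volume : Measure ℂ)
      (fun y : ℝ => -(deriv ph (y ^ 2) / Real.pi))
    have h2 : ∫ y in Ioi (0 : ℝ), 2 * y * deriv ph (y ^ 2) = 0 - ph (0 ^ 2) := by
      refine integral_Ioi_of_hasDerivAt_of_tendsto (f := fun y => ph (y ^ 2)) ?_ ?_ ?_ ?_
      · exact (contDiff_ph.continuous.comp (continuous_pow 2)).continuousWithinAt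
      · intro y _
        have := (hasDerivAt_ph (y ^ 2)).comp y (hasDerivAt_pow 2 y)
        refine HasDerivAt.congr_deriv this ?_
        simp; ring
      · refine (Continuous.integrable_of_hasCompactSupport ?_ ?_).integrableOn
        · have := continuous_dph
          fun_prop
        · refine HasCompactSupport.intro (isCompact_Icc (a := -2) (b := 2)) fun y hy => ?_
          have : 2 < y ^ 2 := by
            rw [mem_Icc, not_and_or] at hy
            rcases hy with hy | hy <;> push Not at hy <;> nlinarith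
          simp [dph_hi this]
      · refine tendsto_const_nhds.congr' ?_
        filter_upwards [eventually_ge_atTop 2] with y hy
        exact (ph_zero (by nlinarith)).symm
    have h3 : ∫ y in Ioi (0 : ℝ), y ^ (2 - 1) • -(deriv ph (y ^ 2) / Real.pi) =
        (-(2 * Real.pi)⁻¹) * ∫ y in Ioi (0 : ℝ), 2 * y * deriv ph (y ^ 2) := by
      rw [← integral_const_mul]
      congr 1; funext y
      have := Real.pi_ne_zero
      simp only [smul_eq_mul, Nat.add_one_sub_one, pow_one]; field_simp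
    rw [Complex.finrank_real_complex, h3, h2, ph_one (by norm_num)] at h
    simp only [mm, one_pow, one_mul]
    rw [integral_complex_ofReal, h]
    simp [Measure.real, Complex.volume_ball]
  simp_rw [mm_scale (l := l)]
  rw [integral_smul, Measure.integral_comp_smul, h1, Complex.finrank_real_complex,
    abs_of_pos (by positivity), smul_smul, mul_inv_cancel₀ (by positivity), one_smul]

/-- the bounds for the pieces -/
theorem exists_M : ∃ M : ℝ, 0 < M ∧ ∀ l, 0 < l → ∀ u, ‖kk l u‖ ≤ M * l ∧ ‖mm l u‖ ≤ M * l ^ 2 ∧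
    ‖fderiv ℝ (kk l) u‖ ≤ M * l ^ 2 ∧
    ∀ v, ‖fderiv ℝ (kk l) u - fderiv ℝ (kk l) v‖ ≤ M * l ^ 3 * ‖u - v‖ := by
  have hk := contDiff_kk one_pos
  have hc := hcs_kk one_pos
  obtain ⟨A, hA⟩ := hc.exists_bound_of_continuous hk.continuous
  obtain ⟨B, hB⟩ := (hcs_of fun _ => mm_hi one_pos).exists_bound_of_continuous (continuous_mm 1)
  obtain ⟨C, hC⟩ := (hc.fderiv ℝ).exists_bound_of_continuous (hk.continuous_fderiv (by simp))
  obtain ⟨D, hD⟩ := ContDiff.lipschitzWith_of_hasCompactSupport (hc.fderiv ℝ)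
    (hk.fderiv_right (m := 1) (by norm_cast)) one_ne_zero
  have hA0 : 0 ≤ A := (norm_nonneg _).trans (hA 0)
  have hB0 : 0 ≤ B := (norm_nonneg _).trans (hB 0)
  have hC0 : 0 ≤ C := (norm_nonneg _).trans (hC 0)
  have hD0 : (0 : ℝ) ≤ D := D.2
  refine ⟨A + B + C + D + 1, by positivity, fun l hl u => ⟨?_, ?_, ?_, fun v => ?_⟩⟩
  · rw [kk_scale hl, norm_mul, norm_real, Real.norm_of_nonneg hl.le, mul_comm]
    exact mul_le_mul_of_nonneg_right (by linarith [hA (l • u)]) hl.le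
  · rw [mm_scale, norm_smul, Real.norm_of_nonneg (by positivity), mul_comm]
    exact mul_le_mul_of_nonneg_right (by linarith [hB (l • u)]) (by positivity)
  · rw [dkk_scale hl, norm_smul, Real.norm_of_nonneg (by positivity), mul_comm]
    exact mul_le_mul_of_nonneg_right (by linarith [hC (l • u)]) (by positivity)
  · rw [dkk_scale hl, dkk_scale hl, ← smul_sub, norm_smul, Real.norm_of_nonneg (by positivity)]
    have h1 := hD.norm_sub_le (l • u) (l • v)
    rw [← smul_sub, norm_smul, Real.norm_of_nonneg hl.le] at h1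
    have h2 : 0 ≤ l ^ 3 * ‖u - v‖ := by positivity
    calc _ ≤ l ^ 2 * (D * (l * ‖u - v‖)) := mul_le_mul_of_nonneg_left h1 (by positivity)
      _ = D * (l ^ 3 * ‖u - v‖) := by ring
      _ ≤ (A + B + C + D + 1) * (l ^ 3 * ‖u - v‖) :=
        mul_le_mul_of_nonneg_right (by linarith) h2
      _ = _ := by ring

variable {F : Type} [NormedAddCommGroup F] [NormedSpace ℂ F]

/-- convolution -/
def cv (κ : ℂ → ℂ) (g : ℂ → F) (z : ℂ) : F := ∫ w, κ (z - w) • g w

theorem cv_int {κ : ℂ → ℂ} {g : ℂ → F} (hκ : Continuous κ) (hc : HasCompactSupport κ)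
    (hg : Continuous g) (z : ℂ) : Integrable fun w => κ (z - w) • g w := by
  refine Continuous.integrable_of_hasCompactSupport (by fun_prop) ?_
  exact (hc.comp_homeomorph (Homeomorph.subLeft z)).smul_right

theorem cv_der {κ : ℂ → ℂ} {g : ℂ → F} (hκ : ContDiff ℝ 1 κ) (hc : HasCompactSupport κ)
    (hg : Continuous g) (z : ℂ) : DifferentiableAt ℝ (cv κ g) z ∧
      ∀ a, fderiv ℝ (cv κ g) z a = cv (fun u => fderiv ℝ κ u a) g z := by
  have h := hc.hasFDerivAt_convolution_right (μ := volume)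
    (ContinuousLinearMap.lsmul ℝ ℂ : ℂ →L[ℝ] F →L[ℝ] F).flip hg.locallyIntegrable hκ z
  have h' : HasFDerivAt (cv κ g) _ z := h
  refine ⟨h'.differentiableAt, fun a => ?_⟩
  rw [h'.fderiv, convolution_precompR_apply _ hg.locallyIntegrable (hc.fderiv ℝ)
    (hκ.continuous_fderiv one_ne_zero)]
  rfl

theorem cv_der' {κ : ℂ → ℂ} {g : ℂ → F} (hκ : Continuous κ) (hc : HasCompactSupport g)
    (hg : ContDiff ℝ 1 g) (z a : ℂ) :
    fderiv ℝ (cv κ g) z a = cv κ (fun u => fderiv ℝ g u a) z := by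
  have h := hc.hasFDerivAt_convolution_right (μ := volume)
    (ContinuousLinearMap.lsmul ℝ ℂ : ℂ →L[ℝ] F →L[ℝ] F) hκ.locallyIntegrable hg z
  have e : ∀ g : ℂ → F, cv κ g = κ ⋆[ContinuousLinearMap.lsmul ℝ ℂ, volume] g := fun g => by
    funext x; rw [convolution_eq_swap]; rfl
  rw [e, e, h.fderiv, convolution_precompR_apply _ hκ.locallyIntegrable (hc.fderiv ℝ)
    (hg.continuous_fderiv one_ne_zero)]

theorem loc {φ : ℂ → ℂ} {h : ℂ → F} {z : ℂ} {r M b : ℝ} (hr : 0 ≤ r) (hM : ∀ w, ‖φ w‖ ≤ M)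
    (h0 : ∀ w, r < ‖z - w‖ → φ w = 0) (hb : ∀ w, ‖z - w‖ ≤ r → ‖h w‖ ≤ b) :
    ‖∫ w, φ w • h w‖ ≤ M * b * (4 * r ^ 2) := by
  have hM0 : 0 ≤ M := (norm_nonneg _).trans (hM 0)
  have hb0 : 0 ≤ b := (norm_nonneg _).trans (hb z (by simpa using hr))
  have hi : Integrable ((closedBall z r).indicator fun _ : ℂ => M * b) :=
    (integrable_indicator_iff measurableSet_closedBall).2
      (integrableOn_const measure_closedBall_lt_top.ne)
  refine (norm_integral_le_of_norm_le hi (Eventually.of_forall fun w => ?_)).trans ?_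
  · by_cases hw : w ∈ closedBall z r
    · rw [indicator_of_mem hw, norm_smul]
      exact mul_le_mul (hM w) (hb w (by rwa [mem_closedBall', dist_eq_norm] at hw))
        (norm_nonneg _) hM0
    · rw [indicator_of_notMem hw, h0 w (by rwa [mem_closedBall', dist_eq_norm, not_le] at hw)]
      simp
  · rw [integral_indicator_const _ measurableSet_closedBall, Measure.real,
      Complex.volume_closedBall, smul_eq_mul, mul_comm]
    refine mul_le_mul_of_nonneg_left ?_ (by positivity)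
    simp only [ENNReal.toReal_mul, ENNReal.toReal_pow, ENNReal.toReal_ofReal hr, ENNReal.coe_toReal,
      NNReal.coe_real_pi]
    nlinarith [Real.pi_le_four, sq_nonneg r]

theorem glob {φ : ℂ → ℂ} {g : ℂ → F} {M : ℝ} (hM : ∀ w, ‖φ w‖ ≤ M) (hg : Integrable g) :
    ‖∫ w, φ w • g w‖ ≤ M * ∫ w, ‖g w‖ := by
  rw [← integral_const_mul]
  refine norm_integral_le_of_norm_le (hg.norm.const_mul M) (Eventually.of_forall fun w => ?_)
  rw [norm_smul]
  exact mul_le_mul_of_nonneg_right (hM w) (norm_nonneg _)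

theorem cv_shift [CompleteSpace F] {κ : ℂ → ℂ} {g : ℂ → F} (hκ : Continuous κ)
    (hc : HasCompactSupport κ) (hg : Continuous g) (z : ℂ) (c : F) :
    cv κ g z = (∫ w, κ (z - w) • (g w - c)) + (∫ u, κ u) • c := by
  have h1 := cv_int hκ hc hg z
  have h2 := cv_int hκ hc (continuous_const (y := c)) z
  simp_rw [smul_sub]
  rw [integral_sub h1 h2, integral_smul_const, integral_sub_left_eq_self]
  simp [cv]

theorem integral_der {κ : ℂ → ℂ} (hκ : ContDiff ℝ 1 κ) (hc : HasCompactSupport κ) (a : ℂ) :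
    ∫ u, fderiv ℝ κ u a = 0 := by
  have h := (cv_der hκ hc (continuous_const (y := (1 : ℂ))) 0).2 a
  have e : ∀ φ : ℂ → ℂ, cv φ (fun _ => (1 : ℂ)) = fun _ => ∫ u, φ u := fun φ => by
    funext z; simp only [cv, smul_eq_mul, mul_one]; exact integral_sub_left_eq_self φ volume z
  rw [e, e] at h
  simpa using h.symm

omit [NormedSpace ℂ F] in
theorem tel {f a : ℤ → F} {x y s : F} (hf : HasSum f s) (h : ∀ j, f j = a j - a (j + 1))
    (hx : Tendsto (fun n : ℕ => a n) atTop (𝓝 x)) (hy : Tendsto (fun n : ℕ => a (-n)) atTop (𝓝 y)) :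
    s = y - x := by
  refine tendsto_nhds_unique hf.nat_add_neg_add_one.tendsto_sum_nat ((hy.sub hx).congr fun n => ?_)
  induction n with
  | zero => simp
  | succ n ih =>
    rw [Finset.sum_range_succ, ← ih, h, h]
    simp only [Nat.cast_add, Nat.cast_one, neg_add_rev, neg_add_cancel_comm]
    abel

/-- the dyadic scales -/
def lam (s : ℝ) (j : ℤ) : ℝ := s * 2 ^ j

theorem lam_pos {s : ℝ} (hs : 0 < s) (j : ℤ) : 0 < lam s j := by unfold lam; positivity

theorem lam_succ (s : ℝ) (j : ℤ) : lam s (j + 1) = 2 * lam s j := by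
  simp only [lam, zpow_add_one₀ (two_ne_zero (α := ℝ))]; ring

theorem lam_top {s : ℝ} (hs : 0 < s) : Tendsto (fun n : ℕ => lam s n) atTop atTop := by
  simp only [lam, zpow_natCast]
  exact (tendsto_pow_atTop_atTop_of_one_lt one_lt_two).const_mul_atTop hs

theorem lam_bot (s : ℝ) : Tendsto (fun n : ℕ => lam s (-n)) atTop (𝓝 0) := by
  simp only [lam, zpow_neg, zpow_natCast]
  simpa using (tendsto_pow_atTop_atTop_of_one_lt (one_lt_two (α := ℝ))).inv_tendsto_atTop.const_mul s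

/-- the geometric weight -/
def gw (j : ℤ) : ℝ := (√2)⁻¹ ^ j.natAbs

theorem gw_pos (j : ℤ) : 0 < gw j := by unfold gw; positivity

theorem summable_gw : Summable gw := by
  have h : Summable fun n : ℕ => (√2 : ℝ)⁻¹ ^ n :=
    summable_geometric_of_lt_one (by positivity)
      (inv_lt_one_of_one_lt₀ (by rw [Real.lt_sqrt (by norm_num)]; norm_num))
  refine Summable.of_nat_of_neg ?_ ?_ <;> simpa [gw] using h

theorem gw_sq (j : ℤ) : gw j ^ 2 = 2⁻¹ ^ j.natAbs := by
  rw [gw, ← pow_mul, mul_comm, pow_mul, inv_pow, Real.sq_sqrt (by norm_num)]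

theorem gw_le (j : ℤ) : gw j ≤ 1 :=
  pow_le_one₀ (by positivity) (inv_le_one_of_one_le₀ (by rw [Real.le_sqrt' one_pos]; norm_num))

/-- either the scale is large or it is small -/
theorem lam_gw (s : ℝ) (j : ℤ) :
    (lam s j * gw j ^ 2 = s ∧ 0 ≤ j) ∨ (lam s j = s * gw j ^ 2 ∧ j ≤ 0) := by
  rw [gw_sq]
  obtain ⟨n, rfl | rfl⟩ := j.eq_nat_or_neg
  · left; simp [lam]
  · right; simp [lam]

omit [NormedSpace ℂ F] in
theorem hasSum_bound {f : ℤ → F} {s : F} (hf : HasSum f s) {A : ℝ} (h : ∀ j, ‖f j‖ ≤ A * gw j) :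
    ‖s‖ ≤ A * ∑' j, gw j :=
  hf.norm_le_of_bounded (summable_gw.hasSum.mul_left A) h

section Pieces
variable {M : ℝ} (hM : ∀ l, 0 < l → ∀ u, ‖kk l u‖ ≤ M * l ∧ ‖mm l u‖ ≤ M * l ^ 2 ∧
    ‖fderiv ℝ (kk l) u‖ ≤ M * l ^ 2 ∧
    ∀ v, ‖fderiv ℝ (kk l) u - fderiv ℝ (kk l) v‖ ≤ M * l ^ 3 * ‖u - v‖)
include hM

theorem piece0 {g : ℂ → F} {B s : ℝ} (hs : 0 < s) (hB : ∀ w, ‖g w‖ ≤ B) (hg : Integrable g)
    (z : ℂ) (j : ℤ) :
    ‖cv (kk (lam s j)) g z‖ ≤ M * (16 * B / s + s * ∫ w, ‖g w‖) * gw j := by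
  have hl := lam_pos hs j
  have hM0 : 0 ≤ M := by
    have := (norm_nonneg _).trans (hM 1 one_pos 0).1
    linarith
  have hB0 : 0 ≤ B := (norm_nonneg _).trans (hB 0)
  have hN : 0 ≤ ∫ w, ‖g w‖ := integral_nonneg fun _ => norm_nonneg _
  have hw := gw_pos j
  have hw2 : gw j ^ 2 ≤ gw j := by nlinarith [gw_le j]
  rcases lam_gw s j with ⟨h, -⟩ | ⟨h, -⟩
  · refine (loc (z := z) (r := 2 / lam s j) (by positivity) (fun w => (hM _ hl _).1)
      (fun w => kk_hi hl) fun w _ => hB w).trans ?_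
    calc _ = M * (16 * B / s) * gw j ^ 2 := by
          have : lam s j = s / gw j ^ 2 := by rw [eq_div_iff (by positivity), h]
          rw [this]; field_simp; ring
      _ ≤ M * (16 * B / s) * gw j := by gcongr
      _ ≤ _ := by gcongr; exact le_add_of_nonneg_right (by positivity)
  · refine (glob (fun w => (hM _ hl _).1) hg).trans ?_
    calc _ = M * (s * ∫ w, ‖g w‖) * gw j ^ 2 := by rw [h]; ring
      _ ≤ M * (s * ∫ w, ‖g w‖) * gw j := by gcongr
      _ ≤ _ := by gcongr; exact le_add_of_nonneg_left (by positivity)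

theorem piece1 [CompleteSpace F] {g : ℂ → F} {C l : ℝ} (hl : 0 < l) (hC : 0 ≤ C)
    (hH : Hld C g univ) (z : ℂ) : ‖fderiv ℝ (cv (kk l) g) z‖ ≤ 32 * M * C * √l⁻¹ := by
  have hg : Continuous g := continuousOn_univ.1 hH.continuousOn
  have hM0 : 0 ≤ M := by
    have := (norm_nonneg _).trans (hM 1 one_pos 0).1
    linarith
  have hk : ContDiff ℝ 1 (kk l) := (contDiff_kk hl).of_le (by simp)
  refine ContinuousLinearMap.opNorm_le_bound _ (by positivity) fun a => ?_
  rw [(cv_der hk (hcs_kk hl) hg z).2, cv_shift (by fun_prop (disch := simp))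
    (hcs_of (r := 2 / l) fun u hu => by simp [dkk_hi hl hu]) hg z (g z), integral_der hk (hcs_kk hl),
    zero_smul, add_zero]
  refine (loc (z := z) (r := 2 / l) (M := M * l ^ 2 * ‖a‖) (b := C * (2 * √l⁻¹)) (by positivity)
    (fun w => ?_) (fun w hw => by simp [dkk_hi hl hw]) fun w hw => ?_).trans (le_of_eq ?_)
  · exact (ContinuousLinearMap.le_opNorm _ _).trans (by gcongr; exact (hM _ hl _).2.2.1)
  · refine (hH w trivial z trivial).trans (mul_le_mul_of_nonneg_left ?_ hC)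
    rw [Real.sqrt_le_left (by positivity), mul_pow, Real.sq_sqrt (by positivity), dist_comm,
      dist_eq_norm]
    have : 0 < l⁻¹ := by positivity
    rw [div_eq_mul_inv] at hw
    linarith
  · field_simp; ring

theorem piece2 [CompleteSpace F] {g : ℂ → F} {C l : ℝ} (hl : 0 < l) (hC : 0 ≤ C)
    (hH : Hld C g univ) {z z' : ℂ} (hz : ‖z - z'‖ ≤ 2 / l) :
    ‖fderiv ℝ (cv (kk l) g) z - fderiv ℝ (cv (kk l) g) z'‖ ≤ 128 * M * C * √l * ‖z - z'‖ := by
  have hg : Continuous g := continuousOn_univ.1 hH.continuousOn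
  have hM0 : 0 ≤ M := by
    have := (norm_nonneg _).trans (hM 1 one_pos 0).1
    linarith
  have hk : ContDiff ℝ 1 (kk l) := (contDiff_kk hl).of_le (by simp)
  refine ContinuousLinearMap.opNorm_le_bound _ (by positivity) fun a => ?_
  have hc : Continuous fun u => fderiv ℝ (kk l) u a := by fun_prop (disch := simp)
  have hs : HasCompactSupport fun u => fderiv ℝ (kk l) u a :=
    hcs_of (r := 2 / l) fun u hu => by simp [dkk_hi hl hu]
  have hg' : Continuous fun w => g w - g z := by fun_prop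
  rw [sub_apply, (cv_der hk (hcs_kk hl) hg z).2, (cv_der hk (hcs_kk hl) hg z').2,
    cv_shift hc hs hg z (g z), cv_shift hc hs hg z' (g z), integral_der hk (hcs_kk hl), zero_smul,
    add_zero, add_zero, ← integral_sub (cv_int hc hs hg' z) (cv_int hc hs hg' z')]
  simp_rw [← sub_smul]
  have h2 : 0 < 2 / l := by positivity
  refine (loc (z := z) (r := 4 / l) (M := M * l ^ 3 * ‖z - z'‖ * ‖a‖) (b := C * (2 * √l⁻¹))
    (by positivity) (fun w => ?_) (fun w hw => ?_) fun w hw => ?_).trans (le_of_eq ?_)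
  · rw [← sub_apply]
    refine (ContinuousLinearMap.le_opNorm _ _).trans ?_
    have := (hM _ hl (z - w)).2.2.2 (z' - w)
    rw [sub_sub_sub_cancel_right] at this
    gcongr
  · have h4 : 4 / l = 2 / l + 2 / l := by ring
    have h3 : ‖z - w‖ ≤ ‖z - z'‖ + ‖z' - w‖ := norm_sub_le_norm_sub_add_norm_sub _ _ _
    simp [dkk_hi hl (u := z - w) (by linarith), dkk_hi hl (u := z' - w) (by linarith)]
  · refine (hH w trivial z trivial).trans (mul_le_mul_of_nonneg_left ?_ hC)
    rw [Real.sqrt_le_left (by positivity), mul_pow, Real.sq_sqrt (by positivity), dist_comm,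
      dist_eq_norm]
    rw [div_eq_mul_inv] at hw
    linarith
  · have h5 : √l * √l = l := Real.mul_self_sqrt hl.le
    have h6 : 0 < √l := Real.sqrt_pos.2 hl
    rw [Real.sqrt_inv]
    field_simp
    rw [sq (√l), h5]; ring

theorem piece1' [CompleteSpace F] {g : ℂ → F} {C s : ℝ} (hs : 0 < s) (hC : 0 ≤ C)
    (hH : Hld C g univ) (hi : Integrable g) (z : ℂ) (j : ℤ) :
    ‖fderiv ℝ (cv (kk (lam s j)) g) z‖ ≤
      M * (32 * C * √s⁻¹ + s ^ 2 * ∫ w, ‖g w‖) * gw j := by
  have hl := lam_pos hs j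
  have hg : Continuous g := continuousOn_univ.1 hH.continuousOn
  have hM0 : 0 ≤ M := by
    have := (norm_nonneg _).trans (hM 1 one_pos 0).1
    linarith
  have hN : 0 ≤ ∫ w, ‖g w‖ := integral_nonneg fun _ => norm_nonneg _
  have hw := gw_pos j
  rcases lam_gw s j with ⟨h, -⟩ | ⟨h, -⟩
  · refine (piece1 hM hl hC hH z).trans ?_
    have : (lam s j)⁻¹ = s⁻¹ * gw j ^ 2 := by
      rw [inv_eq_iff_eq_inv, mul_inv, inv_inv, eq_mul_inv_iff_mul_eq₀ (by positivity), h]
    rw [this, Real.sqrt_mul (by positivity), Real.sqrt_sq hw.le]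
    calc _ = M * (32 * C * √s⁻¹) * gw j := by ring
      _ ≤ _ := by gcongr; exact le_add_of_nonneg_right (by positivity)
  · have hk : ContDiff ℝ 1 (kk (lam s j)) := (contDiff_kk hl).of_le (by simp)
    refine ContinuousLinearMap.opNorm_le_bound _ (by positivity) fun a => ?_
    rw [(cv_der hk (hcs_kk hl) hg z).2]
    refine (glob (M := M * lam s j ^ 2 * ‖a‖) (fun w => ?_) hi).trans ?_
    · exact (ContinuousLinearMap.le_opNorm _ _).trans (by gcongr; exact (hM _ hl _).2.2.1)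
    · have hw2 : gw j ^ 4 ≤ gw j := pow_le_of_le_one hw.le (gw_le j) (by norm_num)
      calc _ = M * (s ^ 2 * ∫ w, ‖g w‖) * gw j ^ 4 * ‖a‖ := by rw [h]; ring
        _ ≤ M * (s ^ 2 * ∫ w, ‖g w‖) * gw j * ‖a‖ := by gcongr
        _ ≤ _ := by gcongr; exact le_add_of_nonneg_left (by positivity)

theorem piece2' [CompleteSpace F] {g : ℂ → F} {C : ℝ} (hC : 0 ≤ C) (hH : Hld C g univ)
    {z z' : ℂ} (hz : z ≠ z') (j : ℤ) :
    ‖fderiv ℝ (cv (kk (lam ‖z - z'‖⁻¹ j)) g) z - fderiv ℝ (cv (kk (lam ‖z - z'‖⁻¹ j)) g) z'‖ ≤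
      128 * M * C * √‖z - z'‖ * gw j := by
  have hd : 0 < ‖z - z'‖ := norm_pos_iff.2 (sub_ne_zero.2 hz)
  set d := ‖z - z'‖ with hdd
  have hl := lam_pos (inv_pos.2 hd) j
  have hM0 : 0 ≤ M := by
    have := (norm_nonneg _).trans (hM 1 one_pos 0).1
    linarith
  have hw := gw_pos j
  rcases lam_gw d⁻¹ j with ⟨h, -⟩ | ⟨h, -⟩
  · refine (norm_sub_le _ _).trans ((add_le_add (piece1 hM hl hC hH z) (piece1 hM hl hC hH z')).trans ?_)
    have : (lam d⁻¹ j)⁻¹ = d * gw j ^ 2 := by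
      rw [inv_eq_iff_eq_inv, mul_inv, eq_mul_inv_iff_mul_eq₀ (by positivity), h]
    rw [this, Real.sqrt_mul hd.le, Real.sqrt_sq hw.le]
    have : 0 ≤ M * C * √d * gw j := by positivity
    nlinarith
  · have hw2 : gw j ^ 2 ≤ 1 := pow_le_one₀ hw.le (gw_le j)
    refine (piece2 hM hl hC hH ?_).trans (le_of_eq ?_)
    · rw [le_div_iff₀ hl, h, ← hdd, ← mul_assoc, mul_inv_cancel₀ hd.ne']
      linarith
    · rw [h, Real.sqrt_mul (by positivity), Real.sqrt_sq hw.le, Real.sqrt_inv, ← hdd]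
      have h5 : √d * √d = d := Real.mul_self_sqrt hd.le
      have h6 : 0 < √d := Real.sqrt_pos.2 hd
      field_simp
      rw [sq (√d), h5]

end Pieces

theorem int_ck {g : ℂ → F} (hg : Continuous g) (hc : HasCompactSupport g) (z : ℂ) :
    Integrable fun w => ck (z - w) • g w := by
  have h : LocallyIntegrable ck volume := by
    refine locallyIntegrable_of_norm_le_rpow (C := Real.pi⁻¹) (α := 1) (by simp) (by simp)
      (Eventually.of_forall fun u => ?_) ?_
    · simp [ck, Real.rpow_neg_one, abs_of_pos Real.pi_pos, mul_comm]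
    · exact (measurable_id.const_mul (Real.pi : ℂ)).inv.aestronglyMeasurable
  exact (hc.convolutionExists_right (ContinuousLinearMap.lsmul ℝ ℂ : ℂ →L[ℝ] F →L[ℝ] F) h hg
    z).integrable_swap

theorem norm_ak_smul (l : ℝ) (u : ℂ) (x : F) : ‖ak l u • x‖ ≤ ‖ck u • x‖ := by
  rw [ak, mul_smul, norm_smul, norm_real, Real.norm_eq_abs]
  exact mul_le_of_le_one_left (norm_nonneg _) (abs_ph _)

theorem meas_ak {g : ℂ → F} (hg : Continuous g) (hc : HasCompactSupport g) (l : ℝ) (z : ℂ) :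
    AEStronglyMeasurable fun w => ak l (z - w) • g w := by
  have h1 := contDiff_ph.continuous
  have h2 : Continuous fun w : ℂ => (ph (l ^ 2 * ‖z - w‖ ^ 2) : ℂ) := by fun_prop
  simp only [ak, mul_smul]
  exact h2.aestronglyMeasurable.smul (int_ck hg hc z).1

theorem hasSum_Tc [CompleteSpace F] {g : ℂ → F} (hg : Continuous g) (hc : HasCompactSupport g)
    {s : ℝ} (hs : 0 < s) (z : ℂ) : HasSum (fun j => cv (kk (lam s j)) g z) (Tc g z) := by
  obtain ⟨M, -, hM⟩ := exists_M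
  obtain ⟨B, hB⟩ := hc.exists_bound_of_continuous hg
  have hsum : Summable fun j => cv (kk (lam s j)) g z :=
    Summable.of_norm_bounded (summable_gw.mul_left _)
      (piece0 hM hs hB (hg.integrable_of_hasCompactSupport hc) z)
  have hi : ∀ l, Integrable fun w => ak l (z - w) • g w := fun l =>
    (int_ck hg hc z).mono (meas_ak hg hc l z) (Eventually.of_forall fun w => norm_ak_smul _ _ _)
  have key := tel (a := fun j => cv (ak (lam s j)) g z) (x := 0) (y := Tc g z) hsum.hasSum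
    (fun j => by
      simp only [cv, kk, sub_smul, lam_succ]
      exact integral_sub (hi _) (hi _)) ?_ ?_
  · rw [sub_zero] at key
    exact key ▸ hsum.hasSum
  · have := tendsto_integral_of_dominated_convergence (μ := volume)
      (F := fun (n : ℕ) w => ak (lam s n) (z - w) • g w) (f := fun _ => 0) _
      (fun n => meas_ak hg hc _ z) (int_ck hg hc z).norm
      (fun n => Eventually.of_forall fun w => norm_ak_smul _ _ _)
      (Eventually.of_forall fun w => ?_)
    · simpa [cv] using this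
    · by_cases hw : z - w = 0
      · simp [hw, ak, ck]
      · refine tendsto_const_nhds.congr' ?_
        have hp := norm_pos_iff.2 hw
        filter_upwards [(lam_top hs).eventually_gt_atTop (2 / ‖z - w‖)] with n hn
        rw [ak_hi (lam_pos hs _), zero_smul]
        rwa [div_lt_iff₀ (lam_pos hs _), mul_comm, ← div_lt_iff₀ hp]
  · refine tendsto_integral_of_dominated_convergence (μ := volume)
      (F := fun (n : ℕ) w => ak (lam s (-n)) (z - w) • g w) (f := fun w => ck (z - w) • g w) _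
      (fun n => meas_ak hg hc _ z) (int_ck hg hc z).norm
      (fun n => Eventually.of_forall fun w => norm_ak_smul _ _ _)
      (Eventually.of_forall fun w => ?_)
    have h1 := contDiff_ph.continuous
    have h2 : Continuous fun l : ℝ => ak l (z - w) • g w := by unfold ak; fun_prop
    simpa [ak, ph_one, Function.comp_def] using (h2.tendsto 0).comp (lam_bot s)

theorem mm_top [CompleteSpace F] {g : ℂ → F} (hg : Continuous g) {s : ℝ} (hs : 0 < s) (z : ℂ) :
    Tendsto (fun n : ℕ => cv (mm (lam s n)) g z) atTop (𝓝 (g z)) := by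
  obtain ⟨M, hM0, hM⟩ := exists_M
  rw [Metric.tendsto_nhds]
  intro ε hε
  obtain ⟨δ, hδ, hd⟩ := Metric.continuousAt_iff.1 (hg.continuousAt (x := z)) (ε / (32 * M))
    (by positivity)
  filter_upwards [(lam_top hs).eventually_gt_atTop (2 / δ)] with n hn
  have hl := lam_pos hs n
  rw [cv_shift (continuous_mm _) (hcs_of fun _ => mm_hi hl) hg z (g z), integral_mm hl, one_smul,
    dist_eq_norm, add_sub_cancel_right]
  refine (loc (z := z) (r := 2 / lam s n) (b := ε / (32 * M)) (by positivity)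
    (fun w => (hM _ hl _).2.1) (fun w => mm_hi hl) fun w hw => ?_).trans_lt ?_
  · rw [← dist_eq_norm]
    refine (hd ?_).le
    rw [dist_comm, dist_eq_norm]
    refine hw.trans_lt ?_
    rwa [div_lt_iff₀ hl, mul_comm, ← div_lt_iff₀ hδ]
  · have : M * lam s n ^ 2 * (ε / (32 * M)) * (4 * (2 / lam s n) ^ 2) = ε / 2 := by
      field_simp; ring
    linarith

theorem mm_bot {g : ℂ → F} (hg : Integrable g) {s : ℝ} (hs : 0 < s) (z : ℂ) :
    Tendsto (fun n : ℕ => cv (mm (lam s (-n))) g z) atTop (𝓝 0) := by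
  obtain ⟨M, hM0, hM⟩ := exists_M
  refine squeeze_zero_norm (fun n => glob (fun w => (hM _ (lam_pos hs _) _).2.1) hg) ?_
  simpa using (((lam_bot s).pow 2).const_mul M).mul_const (∫ w, ‖g w‖)

theorem dbar_cv {g : ℂ → F} (hg : Continuous g) {l : ℝ} (hl : 0 < l) (z : ℂ) :
    dbar (cv (kk l) g) z = -cv (mm l) g z - -cv (mm (2 * l)) g z := by
  have hk : ContDiff ℝ 1 (kk l) := (contDiff_kk hl).of_le (by simp)
  have hi : ∀ a, Integrable fun w => fderiv ℝ (kk l) (z - w) a • g w := fun a =>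
    cv_int (κ := fun u => fderiv ℝ (kk l) u a) (by fun_prop (disch := simp))
      (hcs_of (r := 2 / l) fun u hu => by simp [dkk_hi hl hu]) hg z
  have hm : ∀ l, 0 < l → Integrable fun w => mm l (z - w) • g w := fun l hl =>
    cv_int (continuous_mm l) (hcs_of fun _ => mm_hi hl) hg z
  unfold dbar
  rw [(cv_der hk (hcs_kk hl) hg z).2, (cv_der hk (hcs_kk hl) hg z).2, neg_sub_neg]
  simp only [cv]
  rw [← integral_smul, ← integral_add (hi 1) ((hi I).fun_smul I), ← integral_smul,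
    ← integral_sub (hm _ (by positivity)) (hm _ hl)]
  congr 1; funext w
  rw [← sub_smul, ← dbar_kk hl, dbar, smul_smul, ← add_smul, smul_smul]
  rfl

theorem tel_mm [CompleteSpace F] {g : ℂ → F} (hg : Continuous g) (hc : HasCompactSupport g)
    {z : ℂ} {y : F} (h : HasSum (fun j => dbar (cv (kk (lam 1 j)) g) z) y) : y = g z := by
  have := tel (a := fun j => -cv (mm (lam 1 j)) g z) h
    (fun j => by rw [dbar_cv hg (lam_pos one_pos j), lam_succ])
    (mm_top hg one_pos z).neg (mm_bot (hg.integrable_of_hasCompactSupport hc) one_pos z).neg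
  simpa using this

theorem hasSum_der [CompleteSpace F] {g : ℂ → F} {C : ℝ} (hC : 0 ≤ C) (hH : Hld C g univ)
    (hc : HasCompactSupport g) {s : ℝ} (hs : 0 < s) (z : ℂ) : DifferentiableAt ℝ (Tc g) z ∧
      HasSum (fun j => fderiv ℝ (cv (kk (lam s j)) g) z) (fderiv ℝ (Tc g) z) := by
  obtain ⟨M, -, hM⟩ := exists_M
  have hg : Continuous g := continuousOn_univ.1 hH.continuousOn
  have hb := piece1' hM hs hC hH (hg.integrable_of_hasCompactSupport hc)
  have h := hasFDerivAt_tsum (f := fun j => cv (kk (lam s j)) g) (summable_gw.mul_left _)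
    (fun j x => (cv_der ((contDiff_kk (lam_pos hs j)).of_le (by simp)) (hcs_kk (lam_pos hs j)) hg
      x).1.hasFDerivAt) (fun j x => hb x j) (hasSum_Tc hg hc hs 0).summable z
  have e : (fun y => ∑' j, cv (kk (lam s j)) g y) = Tc g :=
    funext fun y => (hasSum_Tc hg hc hs y).tsum_eq
  rw [e] at h
  refine ⟨h.differentiableAt, ?_⟩
  rw [h.fderiv]
  exact (Summable.of_norm_bounded (summable_gw.mul_left _) (hb z)).hasSum

/-- the Cauchy transform inverts `dbar` from the right -/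
theorem dbar_Tc [CompleteSpace F] {g : ℂ → F} {C : ℝ} (hC : 0 ≤ C) (hH : Hld C g univ)
    (hc : HasCompactSupport g) (z : ℂ) : dbar (Tc g) z = g z := by
  have h := (hasSum_der hC hH hc one_pos z).2
  refine tel_mm (continuousOn_univ.1 hH.continuousOn) hc ?_
  exact ((h.mapL (ContinuousLinearMap.apply ℝ F (1 : ℂ))).add
    ((h.mapL (ContinuousLinearMap.apply ℝ F I)).const_smul I)).const_smul (2⁻¹ : ℂ)

/-- Cauchy-Pompeiu formula -/
theorem Tc_dbar [CompleteSpace F] {w : ℂ → F} (hw : ContDiff ℝ 1 w) (hc : HasCompactSupport w)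
    (z : ℂ) : Tc (dbar w) z = w z := by
  have h1 : Continuous (dbar w) := by unfold dbar; fun_prop (disch := simp)
  have h2 : HasCompactSupport (dbar w) :=
    (hc.fderiv ℝ).mono fun u hu h0 => hu (by simp [dbar, h0])
  refine tel_mm hw.continuous hc ((hasSum_Tc h1 h2 one_pos z).congr_fun fun j => ?_)
  have hl := lam_pos one_pos j
  have hk := (contDiff_kk hl).continuous
  have hi : ∀ a, Integrable fun u => kk (lam 1 j) (z - u) • fderiv ℝ w u a := fun a =>
    cv_int hk (hcs_kk hl) (g := fun u => fderiv ℝ w u a) (by fun_prop (disch := simp)) z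
  unfold dbar
  rw [cv_der' hk hc hw, cv_der' hk hc hw]
  simp only [cv]
  rw [← integral_smul, ← integral_add (hi 1) ((hi I).fun_smul I), ← integral_smul]
  congr 1; funext u
  rw [smul_comm (kk _ _), smul_add (kk _ _), smul_comm (kk _ _) I]

/-- the estimates; `s` is a free scale -/
theorem exists_K : ∃ K : ℝ, 0 < K ∧ ∀ (F : Type) [NormedAddCommGroup F] [NormedSpace ℂ F]
    [CompleteSpace F] (g : ℂ → F), HasCompactSupport g →
    (∀ B s, 0 < s → Continuous g → (∀ w, ‖g w‖ ≤ B) →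
      ∀ z, ‖Tc g z‖ ≤ K * (B / s + s * ∫ w, ‖g w‖)) ∧
    ∀ C, 0 ≤ C → Hld C g univ → Hld (K * C) (fderiv ℝ (Tc g)) univ ∧
      ∀ s, 0 < s → ∀ z, ‖fderiv ℝ (Tc g) z‖ ≤ K * (C * √s⁻¹ + s ^ 2 * ∫ w, ‖g w‖) := by
  obtain ⟨M, hM0, hM⟩ := exists_M
  have hS : 0 < ∑' j, gw j := summable_gw.tsum_pos (fun j => (gw_pos j).le) 0 (gw_pos 0)
  refine ⟨128 * M * ∑' j, gw j, by positivity, fun F _ _ _ g hc =>
    ⟨fun B s hs hg hB z => ?_, fun C hC hH => ⟨fun z _ z' _ => ?_, fun s hs z => ?_⟩⟩⟩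
  · refine (hasSum_bound (hasSum_Tc hg hc hs z)
      (piece0 hM hs hB (hg.integrable_of_hasCompactSupport hc) z)).trans ?_
    have hN : 0 ≤ s * ∫ w, ‖g w‖ := mul_nonneg hs.le (integral_nonneg fun _ => norm_nonneg _)
    have hB0 : 0 ≤ B / s := div_nonneg ((norm_nonneg _).trans (hB 0)) hs.le
    rw [mul_div_assoc, mul_right_comm, mul_assoc 128, mul_comm 128, mul_assoc _ 128]
    gcongr
    linarith
  · by_cases hz : z = z'
    · simp [hz]
    · have hd : 0 < ‖z - z'‖⁻¹ := inv_pos.2 (norm_pos_iff.2 (sub_ne_zero.2 hz))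
      refine (hasSum_bound ((hasSum_der hC hH hc hd z).2.sub (hasSum_der hC hH hc hd z').2)
        (piece2' hM hC hH hz)).trans (le_of_eq ?_)
      rw [dist_eq_norm]; ring
  · have hg : Continuous g := continuousOn_univ.1 hH.continuousOn
    refine (hasSum_bound (hasSum_der hC hH hc hs z).2
      (piece1' hM hs hC hH (hg.integrable_of_hasCompactSupport hc) z)).trans ?_
    have hN : 0 ≤ s ^ 2 * ∫ w, ‖g w‖ :=
      mul_nonneg (by positivity) (integral_nonneg fun _ => norm_nonneg _)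
    have hB0 : 0 ≤ C * √s⁻¹ := by positivity
    rw [mul_assoc 32, mul_right_comm, mul_assoc 128, mul_comm 128, mul_assoc _ 128]
    gcongr
    linarith

theorem contDiff_Tc [CompleteSpace F] {g : ℂ → F} {C : ℝ} (hC : 0 ≤ C) (hH : Hld C g univ)
    (hc : HasCompactSupport g) : ContDiff ℝ 1 (Tc g) := by
  obtain ⟨K, -, hK⟩ := exists_K
  exact contDiff_one_iff_fderiv.2 ⟨fun z => (hasSum_der hC hH hc one_pos z).1,
    continuousOn_univ.1 ((hK F g hc).2 C hC hH).1.continuousOn⟩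

omit [NormedSpace ℂ F] in
theorem integral_norm_le {g : ℂ → F} {c : ℂ} {R B : ℝ} (hR : 0 ≤ R) (hB : ∀ w, ‖g w‖ ≤ B)
    (h0 : ∀ w, R < ‖w - c‖ → g w = 0) : ∫ w, ‖g w‖ ≤ 4 * R ^ 2 * B := by
  have h := loc (F := ℂ) (φ := fun w => (‖g w‖ : ℂ)) (h := fun _ => 1) (z := c) (b := 1) hR
    (fun w => by simpa using hB w) (fun w hw => by simp [h0 w (by rwa [norm_sub_rev])])
    (fun _ _ => by simp)
  simp only [smul_eq_mul, mul_one, integral_complex_ofReal, norm_real, Real.norm_eq_abs] at h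
  linarith [le_abs_self (∫ w, ‖g w‖)]

/-- the estimates for a function supported in a disc of radius `R` -/
theorem exists_K' : ∃ K : ℝ, 0 < K ∧ ∀ (F : Type) [NormedAddCommGroup F] [NormedSpace ℂ F]
    [CompleteSpace F] (g : ℂ → F) (c : ℂ) (R B : ℝ), 0 < R → (∀ w, ‖g w‖ ≤ B) →
    (∀ w, R < ‖w - c‖ → g w = 0) → (Continuous g → ∀ z, ‖Tc g z‖ ≤ K * R * B) ∧
    ∀ C, 0 ≤ C → Hld C g univ → Hld (K * C) (fderiv ℝ (Tc g)) univ ∧
      ∀ z, ‖fderiv ℝ (Tc g) z‖ ≤ K * (C * √R + B) := by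
  obtain ⟨K, hK0, hK⟩ := exists_K
  refine ⟨5 * K, by positivity, fun F _ _ _ g c R B hR hB h0 => ?_⟩
  have hc : HasCompactSupport g := HasCompactSupport.intro (isCompact_closedBall c R) fun u hu =>
    h0 u (by simpa [dist_eq_norm] using hu)
  have hN := integral_norm_le hR.le hB h0
  have hB0 : 0 ≤ B := (norm_nonneg _).trans (hB 0)
  refine ⟨fun hg z => ?_, fun C hC hH => ⟨((hK F g hc).2 C hC hH).1.mono
    (by nlinarith [mul_nonneg hK0.le hC]) Subset.rfl, fun z => ?_⟩⟩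
  · refine ((hK F g hc).1 B R⁻¹ (by positivity) hg hB z).trans ?_
    calc _ ≤ K * (B / R⁻¹ + R⁻¹ * (4 * R ^ 2 * B)) := by gcongr
      _ = _ := by field_simp; ring
  · refine (((hK F g hc).2 C hC hH).2 R⁻¹ (by positivity) z).trans ?_
    have : 0 ≤ K * (C * √R) := by positivity
    have : 0 ≤ K * B := by positivity
    calc _ ≤ K * (C * √R⁻¹⁻¹ + R⁻¹ ^ 2 * (4 * R ^ 2 * B)) := by gcongr
      _ = K * (C * √R) + 4 * (K * B) := by rw [inv_inv]; field_simp
      _ ≤ _ := by linarith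

end

end Pool.Agent.MP_9758ca_gt.CT
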